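import Pool.Agent.H413.G.R_seed8.H494R3.NK.Stmts

set_option autoImplicit false

/-!
Proof of `TaskIndex` from `TaskFred`.
-/

namespace Pool.Agent.H380R3.NK

open Pool.Agent.H494R3.NK

universe u

theorem cut_inverse {A : Type u} [NonUnitalCStarAlgebra A] (p y : A) (hp : p * p = p)
    (h1 : p * y = y) (h2 : y * p = y) (hn : ‖p - y‖ < 1) :
    ∃ w : A, w * y = p ∧ p * w = w ∧ w * p = w := by
  have hnorm : ‖((p - y : A) : Unitization ℂ A)‖ < 1 := by
    rw [Unitization.norm_inr]
    exact hn
  let u : (Unitization ℂ A)ˣ := Units.oneSub ((p - y : A) : Unitization ℂ A) hnorm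
  have hu : (u : Unitization ℂ A) = 1 - ((p - y : A) : Unitization ℂ A) := rfl
  obtain ⟨v, hv⟩ : ∃ v : Unitization ℂ A, v = ((u⁻¹ : (Unitization ℂ A)ˣ) : Unitization ℂ A) :=
    ⟨_, rfl⟩
  have hvu : v * (1 - ((p - y : A) : Unitization ℂ A)) = 1 := by
    rw [hv, ← hu]
    exact u.inv_mul
  have hy : (1 - ((p - y : A) : Unitization ℂ A)) * (p : Unitization ℂ A) = (y : A) := by
    rw [sub_mul, one_mul, ← Unitization.inr_mul, sub_mul, hp, h2, Unitization.inr_sub]
    abel
  refine ⟨v.fst • p + p * v.snd * p, ?_, ?_, ?_⟩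
  · have hw : ((v.fst • p + p * v.snd * p : A) : Unitization ℂ A) =
        (p : Unitization ℂ A) * v * (p : Unitization ℂ A) := by
      conv_rhs => rw [← Unitization.inl_fst_add_inr_snd_eq v]
      rw [mul_add, add_mul, ← Unitization.inr_mul, ← Unitization.inr_mul,
        Unitization.inr_mul_inl, ← Unitization.inr_mul, smul_mul_assoc, hp,
        Unitization.inr_add]
    apply Unitization.inr_injective (R := ℂ)
    rw [Unitization.inr_mul, hw, ← hy]
    calc (p : Unitization ℂ A) * v * (p : Unitization ℂ A) *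
          ((1 - ((p - y : A) : Unitization ℂ A)) * (p : Unitization ℂ A))
        = (p : Unitization ℂ A) * v * ((p : Unitization ℂ A) * (y : A)) := by
          rw [hy, mul_assoc]
      _ = (p : Unitization ℂ A) * v * (y : A) := by rw [← Unitization.inr_mul, h1]
      _ = (p : Unitization ℂ A) * (v * (1 - ((p - y : A) : Unitization ℂ A))) *
            (p : Unitization ℂ A) := by
          rw [← hy]
          simp only [mul_assoc]
      _ = (p : Unitization ℂ A) := by rw [hvu, mul_one, ← Unitization.inr_mul, hp]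
  · rw [mul_add, mul_smul_comm, hp, ← mul_assoc, ← mul_assoc, hp]
  · rw [add_mul, smul_mul_assoc, hp, mul_assoc, hp]

theorem Ir_mul_left {A : Type u} [NonUnitalRing A] {r a z : A} (hz : z ∈ Ir r) :
    a * z ∈ Ir r := by
  obtain ⟨m, x, y, rfl⟩ := hz
  refine ⟨m, fun i => a * x i, y, ?_⟩
  rw [Finset.mul_sum]
  exact Finset.sum_congr rfl fun i _ => by simp only [mul_assoc]

theorem taskIndex (h : TaskFred.{u}) : TaskIndex.{u} := by
  intro A _ r p s t hr hp hcorner hpI hps hsp hpt htp hts happ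
  have hε : (0 : ℝ) < 1 / (2 * (‖t‖ + 1)) := by positivity
  obtain ⟨c, k, hkI, hpk, hkp, hk⟩ := happ _ hε
  have hs'p : (c • p + k) * p = c • p + k := by rw [add_mul, smul_mul_assoc, hp, hkp]
  have hn : ‖p - t * (c • p + k)‖ < 1 := by
    have e1 : p - t * (c • p + k) = t * (s - (c • p + k)) := by rw [mul_sub, hts]
    rw [e1]
    have h2 : ‖t * (s - (c • p + k))‖ ≤ ‖t‖ * (1 / (2 * (‖t‖ + 1))) :=
      (norm_mul_le _ _).trans (mul_le_mul_of_nonneg_left hk.le (norm_nonneg t))
    have h3 : ‖t‖ * (1 / (2 * (‖t‖ + 1))) < 1 := by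
      have h0 := norm_nonneg t
      rw [mul_one_div, div_lt_one (by positivity)]
      linarith
    linarith
  obtain ⟨w, hw1, hw2, hw3⟩ := cut_inverse p (t * (c • p + k)) hp
    (by rw [← mul_assoc, hpt]) (by rw [mul_assoc, hs'p]) hn
  have hc : c ≠ 0 := by
    rintro rfl
    apply hpI
    rw [← hw1, zero_smul, zero_add]
    exact Ir_mul_left (Ir_mul_left hkI)
  obtain ⟨g, hg1, hg2⟩ := h A r p k (w * t) c hr hp hcorner hc hkI hpk hkp
    (by rw [mul_assoc]; exact hw1)
  have hg : w * t = g := by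
    calc w * t = w * t * p := by rw [mul_assoc, htp]
      _ = w * t * ((c • p + k) * g) := by rw [hg2]
      _ = w * (t * (c • p + k)) * g := by simp only [mul_assoc]
      _ = g := by rw [hw1, hg1]
  have ha : (c • p + k) * w * t = p := by rw [mul_assoc, hg, hg2]
  have hs : s = (c • p + k) * w := by
    calc s = (c • p + k) * w * t * s := by rw [ha, hps]
      _ = (c • p + k) * w * (t * s) := by rw [mul_assoc]
      _ = (c • p + k) * w := by rw [hts, mul_assoc, hw3]
  rw [hs, ha]

end Pool.Agent.H380R3.NK
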